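import Mathlib
import Pool.Agent.Y822.Q.Stm
import Pool.Agent.Y822.Main0

/-! The quarter law, part PRM: primes `n + i` with the other shifts rough, uniform lower bound. -/

set_option autoImplicit false

namespace Pool.Agent.Y978.QL

open Finset Filter
open Pool.Agent.Y822 Pool.Agent.Y822.Q
open Pool.Agent.H373R2.T7 (pz Vz mem_pz rhoA PerA lam_fund)
open Pool.Agent.H387R2.Uni (nuT Adm locT CT)

/-- the forbidden classes of `m = n + i` -/
def QS (H : Finset ℕ) (i p m : ℕ) : Prop := ∃ t ∈ H.erase i, (m + t) % p = i % p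

/-- the number of classes -/
lemma card_R (T : Finset ℕ) (m p : ℕ) (hp : p.Prime) :
    ((range p).filter (fun r => ∃ s ∈ T, r + s ≡ m [MOD p])).card = nuT T p := by
  classical
  have hp0 := hp.pos
  have himg : (range p).filter (fun r => ∃ s ∈ T, r + s ≡ m [MOD p]) =
      (T.image (· % p)).image (fun c => (m + (p - c)) % p) := by
    ext r
    rw [mem_filter, mem_range, mem_image]
    constructor
    · rintro ⟨hr, s, hs, e1⟩
      refine ⟨s % p, mem_image.2 ⟨s, hs, rfl⟩, ?_⟩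
      have e2 : (m + (p - s % p)) % p + s ≡ m [MOD p] := by
        have h1 : (m + (p - s % p)) % p + s ≡ m + (p - s % p) + s % p [MOD p] :=
          Nat.ModEq.add (Nat.mod_modEq _ _) (Nat.mod_modEq _ _).symm
        have h2 : m + (p - s % p) + s % p = m + p := by
          have := Nat.mod_lt s hp0
          omega
        rw [h2] at h1
        exact h1.trans (by simp [Nat.ModEq])
      have e3 : (m + (p - s % p)) % p ≡ r [MOD p] :=
        Nat.ModEq.add_right_cancel' s (e2.trans e1.symm)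
      exact Nat.ModEq.eq_of_lt_of_lt e3 (Nat.mod_lt _ hp0) hr
    · rintro ⟨c, hc, rfl⟩
      rw [mem_image] at hc
      obtain ⟨s, hs, rfl⟩ := hc
      refine ⟨Nat.mod_lt _ hp0, s, hs, ?_⟩
      have h3 : (m + (p - s % p)) % p + s ≡ m + (p - s % p) + s % p [MOD p] :=
        Nat.ModEq.add (Nat.mod_modEq _ _) (Nat.mod_modEq _ _).symm
      have h4 : m + (p - s % p) + s % p = m + p := by
        have := Nat.mod_lt s hp0
        omega
      rw [h4] at h3
      exact h3.trans (by simp [Nat.ModEq])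
  rw [himg, card_image_of_injOn]
  · rfl
  · intro c hc c' hc' h
    rw [mem_coe, mem_image] at hc hc'
    obtain ⟨s, _, rfl⟩ := hc
    obtain ⟨s', _, rfl⟩ := hc'
    have h' : m + (p - s % p) ≡ m + (p - s' % p) [MOD p] := h
    have h2 : p - s % p ≡ p - s' % p [MOD p] := Nat.ModEq.add_left_cancel' m h'
    have l1 := Nat.mod_lt s hp0
    have l2 := Nat.mod_lt s' hp0
    have h3 : (p - s % p) + (s % p + s' % p) ≡ (p - s' % p) + (s % p + s' % p) [MOD p] :=
      Nat.ModEq.add_right _ h2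
    have e1 : (p - s % p) + (s % p + s' % p) = p + s' % p := by omega
    have e2 : (p - s' % p) + (s % p + s' % p) = p + s % p := by omega
    rw [e1, e2] at h3
    have h4 : s' % p ≡ s % p [MOD p] := Nat.ModEq.add_left_cancel' p h3
    exact (Nat.ModEq.eq_of_lt_of_lt h4 l2 l1).symm

lemma rho_QS (H : Finset ℕ) (i : ℕ) (hi : i ∈ H) (p : ℕ) (hp : p.Prime) :
    rhoA (QS H i) p + 1 = nuT H p := by
  classical
  have hp0 := hp.pos
  rw [← card_R H i p hp]
  set R := (range p).filter (fun r => ∃ s ∈ H, r + s ≡ i [MOD p]) with hR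
  have h0R : 0 ∈ R := by
    rw [hR, mem_filter, mem_range]
    exact ⟨hp0, i, hi, by rw [zero_add]⟩
  have h2 : (range p).filter (fun r => ¬ p ∣ r ∧ QS H i p r) = R.erase 0 := by
    ext r
    rw [mem_filter, mem_erase, hR, mem_filter, mem_range]
    constructor
    · rintro ⟨hr, hnd, s, hs, hd⟩
      refine ⟨?_, hr, s, mem_of_mem_erase hs, hd⟩
      rintro rfl
      exact hnd (dvd_zero p)
    · rintro ⟨hr0, hr, s, hs, hd⟩
      have hnd : ¬ p ∣ r := fun h => by
        have := Nat.le_of_dvd (Nat.pos_of_ne_zero hr0) h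
        omega
      refine ⟨hr, hnd, s, mem_erase.2 ⟨?_, hs⟩, hd⟩
      rintro rfl
      have h5 : r + s ≡ 0 + s [MOD p] := by
        rw [zero_add]
        exact hd
      exact hnd ((Nat.modEq_zero_iff_dvd).1 (Nat.ModEq.add_right_cancel' s h5))
  unfold rhoA
  rw [← card_erase_add_one h0R, ← h2]

lemma perA_QS {H : Finset ℕ} {i : ℕ} (hi : i ∈ H) (k : ℕ) (hH : H.card = k + 1) :
    PerA (QS H i) (k + 1) := by
  constructor
  · intro p n
    unfold QS
    simp only [Nat.mod_add_mod]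
  · intro p hp
    have h1 := rho_QS H i hi p hp
    have h2 := nuT_le_card H p
    omega

lemma prod_QS {H : Finset ℕ} {i : ℕ} (hi : i ∈ H) (k : ℕ) (hH : H.card = k + 1) (y : ℕ) :
    ∏ p ∈ pz y, (1 - (rhoA (QS H i) p : ℝ) / (p - 1 : ℝ)) = PT H y * Vz y ^ k := by
  unfold PT Vz
  rw [← prod_pow, ← prod_mul_distrib]
  refine prod_congr rfl fun p hp => ?_
  have hpp := (mem_pz.1 hp).2
  have h1 := rho_QS H i hi p hpp
  have h2 : (rhoA (QS H i) p : ℝ) = (nuT H p : ℝ) - 1 := by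
    rw [← h1]; push_cast; ring
  have hp2 : (2 : ℝ) ≤ p := by exact_mod_cast hpp.two_le
  have hp0 : (p : ℝ) ≠ 0 := by positivity
  have hp1 : (p : ℝ) - 1 ≠ 0 := by
    have : 0 < (p : ℝ) - 1 := by linarith
    exact this.ne'
  have hq : 1 - 1 / (p : ℝ) = ((p : ℝ) - 1) / p := by field_simp
  unfold locT
  rw [h2, hH, hq, pow_succ]
  have h3 : ((p : ℝ) - 1) / p ≠ 0 := div_ne_zero hp1 hp0
  have h4 : (((p : ℝ) - 1) / p) ^ k ≠ 0 := pow_ne_zero _ h3
  field_simp
  ring

/-- the sifted numbers -/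
def BS (H : Finset ℕ) (i y m : ℕ) : Prop := ∀ p ∈ pz y, ¬ QS H i p m

open Classical in
/-- the primes after the shift -/
lemma card_shift (H : Finset ℕ) (i y N : ℕ) :
    ((Icc 1 (N + i)).filter (fun m => m.Prime ∧ (BS H i y m ∧ i < m))).card ≤
      ((Icc 1 N).filter (fun n => (n + i).Prime ∧ ∀ t ∈ H.erase i, Ro y (n + t))).card := by
  refine le_trans (card_le_card (t := ((Icc 1 N).filter
    (fun n => (n + i).Prime ∧ ∀ t ∈ H.erase i, Ro y (n + t))).image (· + i)) ?_) card_image_le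
  intro m hm
  rw [mem_filter, mem_Icc] at hm
  obtain ⟨⟨h1, h2⟩, h3, h4, h5⟩ := hm
  rw [mem_image]
  refine ⟨m - i, ?_, by omega⟩
  rw [mem_filter, mem_Icc]
  have e : m - i + i = m := by omega
  refine ⟨⟨by omega, by omega⟩, by rw [e]; exact h3, fun t ht p hp hpy hd => ?_⟩
  refine h4 p (mem_pz.2 ⟨hpy, hp⟩) ⟨t, ht, ?_⟩
  have e2 : m + t = (m - i + t) + i := by omega
  have h6 : (m - i + t) + i ≡ 0 + i [MOD p] :=
    Nat.ModEq.add_right i ((Nat.modEq_zero_iff_dvd).2 hd)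
  rw [e2]
  rw [zero_add] at h6
  exact h6

open Classical in
/-- the sum over the interval -/
lemma sum_split (B : ℕ → Prop) (N i : ℕ) (f : ℕ → ℝ) :
    ∑ m ∈ (Icc 1 (N + i)).filter (fun m => B m ∧ i < m), f m =
      ∑ m ∈ (Icc 1 (N + i)).filter B, f m - ∑ m ∈ (Icc 1 i).filter B, f m := by
  have h1 : (Icc 1 (N + i)).filter B =
      ((Icc 1 i).filter B) ∪ ((Icc 1 (N + i)).filter (fun m => B m ∧ i < m)) := by
    ext m
    simp only [mem_filter, mem_Icc, mem_union]
    constructor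
    · rintro ⟨⟨h2, h3⟩, h4⟩
      by_cases h5 : i < m
      · exact Or.inr ⟨⟨h2, h3⟩, h4, h5⟩
      · exact Or.inl ⟨⟨h2, by omega⟩, h4⟩
    · rintro (⟨⟨h2, h3⟩, h4⟩ | ⟨⟨h2, h3⟩, h4, h5⟩)
      · exact ⟨⟨h2, by omega⟩, h4⟩
      · exact ⟨⟨h2, h3⟩, h4⟩
  have h2 : Disjoint ((Icc 1 i).filter B) ((Icc 1 (N + i)).filter (fun m => B m ∧ i < m)) := by
    rw [disjoint_left]
    intro m h3 h4
    simp only [mem_filter, mem_Icc] at h3 h4
    omega
  rw [h1, sum_union h2]
  ring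

/-- **primes with the other shifts rough** -/
theorem prm : PrmStm := by
  classical
  intro k κ ε U hκ hκ1 hε hε1
  obtain ⟨K, hK, hfund⟩ := lam_fund (k + 1) (by omega) (ε / 16) (by positivity)
  obtain ⟨x0, hx0⟩ := hfund (U + 2)
  have e1 := ev_logN (eventually_ge_atTop (4 / ε))
  have e2 := ev_logN (eventually_ge_atTop (8 : ℝ))
  have e3 := ev_logN (ev_pow_exp U (1 / 2) 32 (by norm_num))
  filter_upwards [yN_facts κ hκ hκ1 x0 K, e1, e2, e3, eventually_ge_atTop 3] with N hyf h1 h2 h3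
    hN H hH hHN i hi
  obtain ⟨y1, y2, y3, y4, y5⟩ := hyf
  set y := yN κ N with hy
  obtain ⟨L, hL⟩ : ∃ L, L = Real.log N := ⟨_, rfl⟩
  rw [← hL] at h1 h2 h3 ⊢
  have hL0 : 0 < L := by linarith
  have hN0 : (0 : ℝ) < N := by positivity
  have hNe : (N : ℝ) = Real.exp L := by rw [hL, Real.exp_log hN0]
  have hiN : i ≤ N := hHN i hi
  have hiN' : (i : ℝ) ≤ N := by exact_mod_cast hiN
  have hi0 : (0 : ℝ) ≤ i := Nat.cast_nonneg _
  obtain ⟨P, hP⟩ : ∃ P, P = PT H y * Vz y ^ k := ⟨_, rfl⟩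
  have hP0 : 0 ≤ P := by
    rw [hP]
    refine mul_nonneg (PT_nonneg H y) (pow_nonneg ?_ k)
    unfold Vz
    refine prod_nonneg fun p hp => ?_
    have : (1 : ℝ) ≤ p := by exact_mod_cast (mem_pz.1 hp).2.one_lt.le
    rw [sub_nonneg, div_le_one (by linarith)]
    exact this
  rw [← hP]
  have hm1 := hx0 (2 * N) y y5 (y4.trans (by omega)) (QS H i) (perA_QS hi k hH) (N + i) (by omega)
  have hm2 := hx0 (2 * N) y y5 (y4.trans (by omega)) (QS H i) (perA_QS hi k hH) i (by omega)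
  rw [prod_QS hi k hH y, ← hP] at hm1 hm2
  -- logarithms
  obtain ⟨L2, hL2⟩ : ∃ L2, L2 = Real.log ((2 * N : ℕ) : ℝ) := ⟨_, rfl⟩
  rw [← hL2] at hm1 hm2
  have hL2e : L2 = Real.log 2 + L := by
    rw [hL2, hL]
    push_cast
    rw [Real.log_mul (by norm_num) hN0.ne']
  have hlog2 : Real.log 2 ≤ 1 := by
    have := Real.log_two_lt_d9
    linarith
  have hlog20 : 0 ≤ Real.log 2 := Real.log_nonneg (by norm_num)
  have hL2a : L ≤ L2 := by linarith
  have hL2b : L2 ≤ (1 + ε / 4) * L := by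
    have h4 : 1 ≤ ε / 4 * L := by
      rw [div_le_iff₀ hε] at h1
      linarith
    linarith
  -- the error term
  obtain ⟨R, hR⟩ : ∃ R, R = (N : ℝ) / L ^ U := ⟨_, rfl⟩
  have hR0 : 0 ≤ R := by rw [hR]; positivity
  have hE : ((2 * N : ℕ) : ℝ) / L2 ^ (U + 2) ≤ R / 32 := by
    have h4 : ((2 * N : ℕ) : ℝ) / L2 ^ (U + 2) ≤ 2 * N / L ^ (U + 2) := by
      push_cast
      gcongr
    have h5 : 2 * N / L ^ (U + 2) = 2 * R / L ^ 2 := by
      rw [hR, pow_add]
      field_simp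
    have h6 : 2 * R / L ^ 2 ≤ R / 32 := by
      rw [div_le_div_iff₀ (by positivity) (by norm_num)]
      have h7 : (64 : ℝ) ≤ L ^ 2 := by nlinarith
      have h8 := mul_le_mul_of_nonneg_left h7 hR0
      linarith
    linarith
  -- the sums
  obtain ⟨S1, hS1⟩ : ∃ S, S = ∑ n ∈ (Icc 1 (N + i)).filter (BS H i y),
    ArithmeticFunction.vonMangoldt n := ⟨_, rfl⟩
  obtain ⟨S2, hS2⟩ : ∃ S, S = ∑ n ∈ (Icc 1 i).filter (BS H i y),
    ArithmeticFunction.vonMangoldt n := ⟨_, rfl⟩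
  have hm1' : |S1 - ((N : ℝ) + i) * P| ≤ ε / 16 * (((N : ℝ) + i) * P) + R / 32 := by
    rw [hS1]
    push_cast at hm1
    have h4 := hE
    push_cast at h4
    refine le_trans (le_of_eq ?_) (hm1.trans (by linarith))
    congr 2
    refine sum_congr ?_ fun _ _ => rfl
    ext n
    rw [mem_filter, mem_filter]
    exact Iff.rfl
  have hm2' : |S2 - (i : ℝ) * P| ≤ ε / 16 * ((i : ℝ) * P) + R / 32 := by
    rw [hS2]
    push_cast at hm2
    have h4 := hE
    push_cast at h4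
    refine le_trans (le_of_eq ?_) (hm2.trans (by linarith))
    congr 2
    refine sum_congr ?_ fun _ _ => rfl
    ext n
    rw [mem_filter, mem_filter]
    exact Iff.rfl
  have hlow0 := count_low (fun m => BS H i y m ∧ i < m) (N + i) (by omega)
  have hlow : S1 - S2 - 2 * Real.sqrt ((N + i : ℕ) : ℝ) * Real.log ((N + i : ℕ) : ℝ) ≤
      Real.log ((N + i : ℕ) : ℝ) *
        (((Icc 1 (N + i)).filter (fun m => m.Prime ∧ (BS H i y m ∧ i < m))).card : ℝ) := by
    refine le_trans (le_of_eq ?_) (hlow0.trans (le_of_eq ?_))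
    · congr 1
      rw [hS1, hS2, ← sum_split (BS H i y) N i (fun n => ArithmeticFunction.vonMangoldt n)]
      refine sum_congr ?_ fun _ _ => rfl
      ext n
      simp only [mem_filter]
    · congr 3
      ext n
      simp only [mem_filter]
  obtain ⟨C, hC⟩ : ∃ C, C = (((Icc 1 N).filter (fun n => (n + i).Prime ∧
    ∀ t ∈ H.erase i, Ro y (n + t))).card : ℝ) := ⟨_, rfl⟩
  have hcs : (((Icc 1 (N + i)).filter (fun m => m.Prime ∧ (BS H i y m ∧ i < m))).card : ℝ) ≤ C := by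
    rw [hC]
    exact_mod_cast card_shift H i y N
  have hC0 : 0 ≤ C := by rw [hC]; exact Nat.cast_nonneg _
  have hlogNi : Real.log ((N + i : ℕ) : ℝ) ≤ L2 := by
    rw [hL2]
    apply Real.log_le_log
    · push_cast
      linarith
    · exact_mod_cast (by omega : N + i ≤ 2 * N)
  have hlogNi0 : 0 ≤ Real.log ((N + i : ℕ) : ℝ) := Real.log_nonneg (by
    have : 1 ≤ N + i := by omega
    exact_mod_cast this)
  have hsqr : Real.sqrt ((N + i : ℕ) : ℝ) ≤ 2 * Real.exp (L / 2) := by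
    have h4 : ((N + i : ℕ) : ℝ) ≤ (2 * Real.exp (L / 2)) ^ 2 := by
      have h5 : (Real.exp (L / 2)) ^ 2 = N := by
        rw [← Real.exp_nat_mul, hNe]
        congr 1
        push_cast
        ring
      rw [mul_pow, h5]
      push_cast
      linarith
    exact Real.sqrt_le_iff.2 ⟨by positivity, h4⟩
  have hsq : 8 * Real.exp (L / 2) ≤ R / 4 := by
    have h6 : (N : ℝ) = Real.exp (L / 2) * Real.exp (L / 2) := by
      rw [← Real.exp_add, hNe]; congr 1; ring
    have h7 : 32 * L ^ U ≤ Real.exp (L / 2) := by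
      have : (1 : ℝ) / 2 * L = L / 2 := by ring
      rw [← this]; exact h3
    rw [hR, le_div_iff₀ (by norm_num), le_div_iff₀ (by positivity)]
    calc 8 * Real.exp (L / 2) * 4 * L ^ U = Real.exp (L / 2) * (32 * L ^ U) := by ring
      _ ≤ Real.exp (L / 2) * Real.exp (L / 2) := mul_le_mul_of_nonneg_left h7 (Real.exp_pos _).le
      _ = N := h6.symm
  have hmid : S1 - S2 - 2 * (2 * Real.exp (L / 2)) * L2 ≤ L2 * C := by
    have h4 : 2 * Real.sqrt ((N + i : ℕ) : ℝ) * Real.log ((N + i : ℕ) : ℝ) ≤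
        2 * (2 * Real.exp (L / 2)) * L2 := by
      refine mul_le_mul ?_ hlogNi hlogNi0 (by positivity)
      linarith
    have h5 : Real.log ((N + i : ℕ) : ℝ) *
        (((Icc 1 (N + i)).filter (fun m => m.Prime ∧ (BS H i y m ∧ i < m))).card : ℝ) ≤ L2 * C :=
      mul_le_mul hlogNi hcs (Nat.cast_nonneg _) (by linarith)
    linarith
  have ha := abs_le.1 hm1'
  have hb := abs_le.1 hm2'
  have hiP : (i : ℝ) * P ≤ N * P := mul_le_mul_of_nonneg_right hiN' hP0
  have hlow2 : (1 - 3 * ε / 16) * (N * P) - R / 16 ≤ S1 - S2 := by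
    have h4 : ε / 16 * ((i : ℝ) * P) ≤ ε / 16 * (N * P) :=
      mul_le_mul_of_nonneg_left hiP (by positivity)
    linarith [ha.1, hb.2]
  obtain ⟨Q, hQ⟩ : ∃ Q, Q = N / L * P := ⟨_, rfl⟩
  have hQ0 : 0 ≤ Q := by rw [hQ]; positivity
  have hNPL : N * P = L * Q := by rw [hQ]; field_simp
  rw [← hQ, ← hR]
  have hfin : L * ((1 - 3 * ε / 16) * Q - R / 2) ≤ L * ((1 + ε / 4) * C) := by
    have h4 : L2 * C ≤ (1 + ε / 4) * L * C := mul_le_mul_of_nonneg_right hL2b hC0
    have h5 : 2 * (2 * Real.exp (L / 2)) * L2 ≤ L * (R / 4) := by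
      have h6 : L2 ≤ 2 * L := by linarith
      calc 2 * (2 * Real.exp (L / 2)) * L2 ≤ 2 * (2 * Real.exp (L / 2)) * (2 * L) := by gcongr
        _ = L * (8 * Real.exp (L / 2)) := by ring
        _ ≤ _ := mul_le_mul_of_nonneg_left hsq hL0.le
    have h6 : 8 * (R / 4) ≤ L * (R / 4) := mul_le_mul_of_nonneg_right h2 (by positivity)
    rw [hNPL] at hlow2
    have e4 : L * ((1 - 3 * ε / 16) * Q - R / 2) =
        (1 - 3 * ε / 16) * (L * Q) - L * (R / 4) - L * (R / 4) := by ring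
    have e5 : L * ((1 + ε / 4) * C) = (1 + ε / 4) * L * C := by ring
    rw [e4, e5]
    linarith
  have hfin2 := le_of_mul_le_mul_left hfin hL0
  have hgoal : (1 + ε / 4) * ((1 - ε) * Q - R) ≤ (1 + ε / 4) * C := by
    refine le_trans ?_ hfin2
    have e6 : (1 - 3 * ε / 16) * Q - R / 2 - (1 + ε / 4) * ((1 - ε) * Q - R) =
        (9 / 16 * ε + ε ^ 2 / 4) * Q + (1 / 2 + ε / 4) * R := by ring
    have e7 : 0 ≤ (9 / 16 * ε + ε ^ 2 / 4) * Q + (1 / 2 + ε / 4) * R := by positivity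
    linarith
  have h9 := le_of_mul_le_mul_left hgoal (by positivity : (0 : ℝ) < 1 + ε / 4)
  rw [hC] at h9
  exact h9

end Pool.Agent.Y978.QL
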